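import Pool.Agent.Helper5.BD.Main

/-!
If a graph `G` has an optimal drawing whose crossed edges all lie in a graph `H` that has an
orientation with outdegrees at most `d`, then `cr₂(G) ≤ (3/8 - 2^(-10^15 (d+1)^12)) cr(G)`.
-/

namespace Pool.Agent.Results.MP_79ec0d_co.BoundedDegeneracy

open Helper5.CR

theorem result (d n : ℕ) (G H : SimpleGraph (Fin n))
    (P : PreDrawing (fun e : Edge G => e.1.1) (fun e : Edge G => e.1.2)) (hs : P.Simple)
    (hopt : P.crossings = cr G)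
    (hH : ∀ e : Edge G, (∃ δ ∈ (P.route e).tail, P.passes (P.pt δ) = 2) → H.Adj e.1.1 e.1.2)
    (ho : ∃ out : Fin n → Finset (Fin n), (∀ v, (out v).card ≤ d) ∧
      ∀ u v, H.Adj u v → v ∈ out u ∨ u ∈ out v) :
    (cr₂ G : ℝ) ≤ (3 / 8 - 1 / 2 ^ (10 ^ 15 * (d + 1) ^ 12)) * cr G :=
  Helper5.BD.main d n G H P hs hopt hH ho

end Pool.Agent.Results.MP_79ec0d_co.BoundedDegeneracy
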