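import Pool.Agent.Helper5.NE.Final

/-!
Let `P` be an optimal drawing of a finite simple graph `G`.  For vertices `u ≠ v` let `W(v,u)` be
the number of crossings of an edge at `v` with another edge at `u`, minus the number of crossings
on the edge `uv`, and let `r(v)` be the number of crossings on the edges at `v`.  Then
`cr₂(G) ≤ (3/8) cr(G) - (1/4000) ∑_v (∑_{u ≠ v} W(v,u)²) / r(v)`.
-/

namespace Pool.Agent.Results.MP_79ec0d_co.InteractionBound

open Helper5.CR Helper5.NE

theorem result (n : ℕ) (G : SimpleGraph (Fin n))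
    (P : PreDrawing (fun e : Edge G => e.1.1) (fun e : Edge G => e.1.2)) (hs : P.Simple)
    (ho : P.crossings = cr G) :
    (cr₂ G : ℝ) ≤ 3 / 8 * cr G - 1 / 4000 *
      ∑ v, (∑ u ∈ Finset.univ.erase v, ((sep P v u : ℝ) - own P v u) ^ 2) / load P v :=
  main n G P hs ho

end Pool.Agent.Results.MP_79ec0d_co.InteractionBound
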