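import Pool.Agent.Helper5.NE.MeanD

/-!
Let `P` be an optimal drawing of a finite simple graph `G` in which `m` edges are crossed, and let
`k(e)` be the number of crossings on the edge `e`.  Then
`cr₂(G) ≤ (3/8) cr(G) - (1/4147200) (1/m) ∑_e k(e)²`.
Consequently, for every graph `G` with `M` edges,
`cr₂(G) ≤ (3/8 - (1/1036800) cr(G)/M²) cr(G)`.
-/

namespace Pool.Agent.Results.MP_79ec0d_co.MeanSquare

open Helper5.CR Helper5.NE

theorem result (n : ℕ) (G : SimpleGraph (Fin n)) :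
    (∀ P : PreDrawing (fun e : Edge G => e.1.1) (fun e : Edge G => e.1.2),
      P.Simple → P.crossings = cr G →
      (cr₂ G : ℝ) ≤ 3 / 8 * cr G -
        1 / 4147200 * ((∑ e, (onEdge P e : ℝ) ^ 2) / P.crossedEdges)) ∧
    (cr₂ G : ℝ) ≤
      (3 / 8 - 1 / 1036800 * ((cr G : ℝ) / (Nat.card G.edgeSet : ℝ) ^ 2)) * cr G :=
  ⟨fun P hs ho => mean_main n G P hs ho, mean_edges n G⟩

end Pool.Agent.Results.MP_79ec0d_co.MeanSquare
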