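import Pool.Agent.Helper5.NE.CrossD

/-!
Let `G` be a finite simple graph.  If `m` edges are crossed in an optimal drawing of `G`, then
`cr₂(G) ≤ (3/8) cr(G) - (1/80000) √(m³/cr(G))`.  For every finite simple graph `G`,
`cr₂(G) ≤ (3/8) cr(G) - (1/250000) cr(G)^(4/7)`.
-/

namespace Pool.Agent.Results.MP_79ec0d_co.SecondOrderTerm

open Helper5.CR Helper5.NE

theorem result (n : ℕ) (G : SimpleGraph (Fin n)) :
    (∀ P : PreDrawing (fun e : Edge G => e.1.1) (fun e : Edge G => e.1.2),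
      P.Simple → P.crossings = cr G →
      (cr₂ G : ℝ) ≤ 3 / 8 * cr G - 1 / 80000 * √((P.crossedEdges : ℝ) ^ 3 / cr G)) ∧
    (cr₂ G : ℝ) ≤ 3 / 8 * cr G - 1 / 250000 * (cr G : ℝ) ^ (4 / 7 : ℝ) :=
  ⟨fun P hs ho => sparse_main n G P hs ho, all_graphs n G⟩

end Pool.Agent.Results.MP_79ec0d_co.SecondOrderTerm
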